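import Pool.Agent.Work.MP_05654f_an.Normal

/-!
Every neighbourhood of a symmetric non-degenerate bifocal homoclinic orbit of a reversible
vector field on four-space contains a non-symmetric periodic or homoclinic orbit.
-/

namespace Pool.Agent.Results.MP_05654f_an.NonSymmetric

open Filter Topology Set Polynomial Pool.Agent.Work.MP_05654f_an

/-- Euclidean four-space. -/
abbrev R4 : Type := EuclideanSpace ℝ (Fin 4)

/-- The fixed subspace of a linear map. -/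
noncomputable def Fix (R : R4 →ₗ[ℝ] R4) : Submodule ℝ R4 := LinearMap.ker (R - LinearMap.id)

/-- `R` is a linear involution with a two-dimensional fixed space which reverses `f`. -/
def Reversible (f : R4 → R4) (R : R4 →ₗ[ℝ] R4) : Prop :=
  (∀ z, R (R z) = z) ∧ Module.finrank ℝ (Fix R) = 2 ∧ ∀ z, f (R z) = -R (f z)

/-- The characteristic polynomial of the linearisation of `f` at `O`. -/
noncomputable def charAt (f : R4 → R4) (O : R4) : ℝ[X] := (fderiv ℝ f O).toLinearMap.charpoly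

/-- The real quadratic polynomial with roots `α ± i ω`. -/
noncomputable def quad (α ω : ℝ) : ℝ[X] := (X - C α) ^ 2 + C (ω ^ 2)

/-- `O` is an equilibrium with eigenvalues `α₁ ± i ω₁`, `α₂ ± i ω₂`, `α₁ < 0 < α₂`,
`ω₁ ω₂ ≠ 0`. -/
def Bifocus (f : R4 → R4) (O : R4) : Prop :=
  f O = 0 ∧ ∃ α₁ α₂ ω₁ ω₂ : ℝ, α₁ < 0 ∧ 0 < α₂ ∧ ω₁ * ω₂ ≠ 0 ∧
    charAt f O = quad α₁ ω₁ * quad α₂ ω₂

/-- The trajectory of `x` is mapped onto itself by `R`. -/
def Symm (R : R4 →ₗ[ℝ] R4) (x : ℝ → R4) : Prop := R '' range x = range x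

theorem result (f : R4 → R4) (hf : ContDiff ℝ 2 f) (R : R4 →ₗ[ℝ] R4) (hR : Reversible f R)
    (O : R4) (hO : Bifocus f O) (γ : ℝ → R4) (hγ : IsHomoclinic f O γ) (hsym : Symm R γ)
    (hnd : Nondegenerate f O γ) (U : Set R4) (hU : U ∈ 𝓝ˢ (insert O (range γ))) :
    ∃ x : ℝ → R4, range x ⊆ U ∧ ¬Symm R x ∧ (IsPeriodicOrbit f x ∨ IsHomoclinic f O x) := by
  obtain ⟨h0, α₁, α₂, ω₁, ω₂, h₁, h₂, hω, hchar⟩ := hO
  exact main f hf R hR.1 hR.2.2 O h0 α₁ α₂ ω₁ ω₂ h₁ h₂ hω hchar γ hγ hsym hnd U hU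

end Pool.Agent.Results.MP_05654f_an.NonSymmetric
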